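import Mathlib

/-!
# Infinitely many `n` for which all the numbers `n - 2 ^ k` are squarefree

Idea. Let `Q` be the product of all primes up to `y` and consider the numbers `n = Q m + Q / 2` below
`64 ^ y`: these are the odd multiples of the product of the odd primes up to `y`. An odd prime `p ≤ y`
divides `n`, so it does not divide `n - 2 ^ k`. For a prime `p > y` and a given `k` at most
`M / p ^ 2 + 1` of the `M = 64 ^ y / Q` values of `m` give `p ^ 2 ∣ n - 2 ^ k`. The sum of `1 / p ^ 2`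
over the primes `p > y` is `o(1 / y)`, because the primes have density zero, and there are fewer than
`6 y` values of `k`; and `Q ≤ 4 ^ y`. So some `m` is good.
-/

set_option autoImplicit false

namespace Pool.Agent.Results.MP_fcd74d_nt.InfinitelyManyGood

open Finset Nat

/-- Sum of `1 / p ^ 2` over the primes `y < p ≤ R`, if the primes have density at most `ε` beyond `y`. -/
lemma sum_primes (ε : ℝ) (hε : 0 ≤ ε) (y : ℕ) (hy : 1 ≤ y)
    (h : ∀ n : ℕ, y ≤ n → (Nat.primeCounting n : ℝ) ≤ ε * n) (R : ℕ) (hR : y ≤ R) :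
    ∑ p ∈ (Ioc y R).filter Nat.Prime, (1 : ℝ) / (p : ℝ) ^ 2 ≤
      (Nat.primeCounting R : ℝ) / (R : ℝ) ^ 2 + 2 * ε * (1 / (y : ℝ) - 1 / (R : ℝ)) := by
  induction R, hR using Nat.le_induction with
  | base =>
    simp only [Ioc_self, filter_empty, sum_empty, sub_self, mul_zero, add_zero]
    positivity
  | succ R hR ih =>
    have hR0 : (0 : ℝ) < R := by exact_mod_cast (by omega : 0 < R)
    have hR1 : (0 : ℝ) < (R : ℝ) + 1 := by linarith
    have hstep : ∑ p ∈ (Ioc y (R + 1)).filter Nat.Prime, (1 : ℝ) / (p : ℝ) ^ 2 =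
        ∑ p ∈ (Ioc y R).filter Nat.Prime, (1 : ℝ) / (p : ℝ) ^ 2 +
          (if (R + 1).Prime then (1 : ℝ) / ((R : ℝ) + 1) ^ 2 else 0) := by
      have hins : Ioc y (R + 1) = insert (R + 1) (Ioc y R) := by
        ext i
        simp only [mem_Ioc, mem_insert]
        omega
      rw [hins, filter_insert]
      split_ifs with hp
      · rw [sum_insert (by simp), add_comm]
        push_cast
        rfl
      · rw [add_zero]
    have hpi : (Nat.primeCounting (R + 1) : ℝ) = Nat.primeCounting R + (if (R + 1).Prime then 1 else 0) := by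
      have : Nat.primeCounting (R + 1) = Nat.primeCounting R + (if (R + 1).Prime then 1 else 0) := by
        unfold Nat.primeCounting Nat.primeCounting'
        rw [Nat.count_succ]
      rw [this]
      push_cast
      rfl
    rw [hstep, hpi]
    have hkey : (Nat.primeCounting R : ℝ) / (R : ℝ) ^ 2 ≤
        (Nat.primeCounting R : ℝ) / ((R : ℝ) + 1) ^ 2 + 2 * ε * (1 / (R : ℝ) - 1 / ((R : ℝ) + 1)) := by
      have h1 := h R hR
      have e1 : (Nat.primeCounting R : ℝ) / (R : ℝ) ^ 2 - (Nat.primeCounting R : ℝ) / ((R : ℝ) + 1) ^ 2 =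
          (Nat.primeCounting R : ℝ) * ((2 * R + 1) / ((R : ℝ) ^ 2 * ((R : ℝ) + 1) ^ 2)) := by
        field_simp
        ring
      have e2 : (Nat.primeCounting R : ℝ) * ((2 * R + 1) / ((R : ℝ) ^ 2 * ((R : ℝ) + 1) ^ 2)) ≤
          (ε * R) * ((2 * R + 1) / ((R : ℝ) ^ 2 * ((R : ℝ) + 1) ^ 2)) :=
        mul_le_mul_of_nonneg_right h1 (by positivity)
      have e3 : (ε * R) * ((2 * R + 1) / ((R : ℝ) ^ 2 * ((R : ℝ) + 1) ^ 2)) ≤
          2 * ε * (1 / (R : ℝ) - 1 / ((R : ℝ) + 1)) := by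
        have e4 : 2 * ε * (1 / (R : ℝ) - 1 / ((R : ℝ) + 1)) -
            (ε * R) * ((2 * R + 1) / ((R : ℝ) ^ 2 * ((R : ℝ) + 1) ^ 2)) =
            ε / ((R : ℝ) * ((R : ℝ) + 1) ^ 2) := by
          field_simp
          ring
        have e5 : 0 ≤ ε / ((R : ℝ) * ((R : ℝ) + 1) ^ 2) := by positivity
        linarith
      linarith
    push_cast
    split_ifs with hp
    · have e6 : ((Nat.primeCounting R : ℝ) + 1) / ((R : ℝ) + 1) ^ 2 =
          (Nat.primeCounting R : ℝ) / ((R : ℝ) + 1) ^ 2 + 1 / ((R : ℝ) + 1) ^ 2 := by ring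
      rw [e6]
      linarith
    · rw [add_zero, add_zero]
      linarith

/-- The primes have density zero. -/
lemma density (ε : ℝ) (hε : 0 < ε) : ∃ y₀ : ℕ, ∀ n : ℕ, y₀ ≤ n → (Nat.primeCounting n : ℝ) ≤ ε * n := by
  have h1 := Chebyshev.eventually_primeCounting_le one_pos
  have h2 : ∀ᶠ x : ℝ in Filter.atTop, (Real.log 4 + 1) / ε ≤ Real.log x :=
    Real.tendsto_log_atTop.eventually_ge_atTop _
  have h3 := (h1.and (h2.and (Filter.eventually_ge_atTop (2 : ℝ))))
  obtain ⟨x₀, hx₀⟩ := Filter.eventually_atTop.1 h3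
  refine ⟨⌈x₀⌉₊, fun n hn => ?_⟩
  obtain ⟨a1, a2, a3⟩ := hx₀ (n : ℝ) (Nat.ceil_le.1 hn)
  rw [Nat.floor_natCast] at a1
  have hlog : 0 < Real.log n := Real.log_pos (by linarith)
  refine a1.trans ?_
  rw [div_le_iff₀ hε] at a2
  rw [div_le_iff₀ hlog]
  have hn0 : (0 : ℝ) ≤ n := by linarith
  nlinarith

/-- Few values of `m < M` are in a given residue class. -/
lemma count_le (Q p M : ℕ) (hp : p.Prime) (hpQ : ¬ p ∣ Q) (c : ℤ) :
    (((range M).filter fun m : ℕ => ((p : ℤ) ^ 2 ∣ (Q : ℤ) * m + c)).card : ℝ) ≤ M / (p : ℝ) ^ 2 + 1 := by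
  have hp0 : 0 < p := hp.pos
  rcases ((range M).filter fun m : ℕ => ((p : ℤ) ^ 2 ∣ (Q : ℤ) * m + c)).eq_empty_or_nonempty with h | ⟨v, hv⟩
  · rw [h]
    simp only [card_empty, Nat.cast_zero]
    positivity
  · rw [mem_filter] at hv
    have hsub : ((range M).filter fun m : ℕ => ((p : ℤ) ^ 2 ∣ (Q : ℤ) * m + c)) ⊆
        (range M).filter (fun m => m ≡ v [MOD p ^ 2]) := by
      intro m hm
      rw [mem_filter] at hm ⊢
      refine ⟨hm.1, ?_⟩
      have h1 : (p : ℤ) ^ 2 ∣ (Q : ℤ) * ((v : ℤ) - m) := by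
        have := dvd_sub hv.2 hm.2
        have e : (Q : ℤ) * v + c - ((Q : ℤ) * m + c) = (Q : ℤ) * ((v : ℤ) - m) := by ring
        rwa [e] at this
      have hcop : IsCoprime ((p : ℤ) ^ 2) (Q : ℤ) := by
        apply IsCoprime.pow_left
        rw [Nat.isCoprime_iff_coprime]
        exact (Nat.Prime.coprime_iff_not_dvd hp).2 hpQ
      have h2 := hcop.dvd_of_dvd_mul_left h1
      rw [Nat.modEq_iff_dvd]
      push_cast
      exact h2
    have h3 := card_le_card hsub
    have h4 : ((range M).filter (fun m => m ≡ v [MOD p ^ 2])).card = M.count (fun m => m ≡ v [MOD p ^ 2]) := by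
      rw [Nat.count_eq_card_filter_range]
    rw [h4, Nat.count_modEq_card _ (by positivity)] at h3
    have h5 : ((M / p ^ 2 : ℕ) : ℝ) ≤ M / (p : ℝ) ^ 2 := by
      have := @Nat.cast_div_le ℝ _ _ _ M (p ^ 2)
      push_cast at this
      exact this
    have h6 : M / p ^ 2 + (if v % p ^ 2 < M % p ^ 2 then 1 else 0) ≤ M / p ^ 2 + 1 := by
      split_ifs <;> omega
    have h7 := h3.trans h6
    have h8 : (((range M).filter fun m : ℕ => ((p : ℤ) ^ 2 ∣ (Q : ℤ) * m + c)).card : ℝ) ≤ ((M / p ^ 2 + 1 : ℕ) : ℝ) := by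
      exact_mod_cast h7
    refine h8.trans ?_
    push_cast
    linarith

lemma twelve_mul_le (y : ℕ) (hy : 12 ≤ y) : 12 * y ≤ 2 ^ y := by
  induction y, hy using Nat.le_induction with
  | base => norm_num
  | succ n hn ih => rw [pow_succ]; omega

/-- The main step: there is a good number which is at least `y / 2`. -/
lemma exists_good (y : ℕ) (hy : 12 ≤ y) (hd : ∀ n : ℕ, y ≤ n → (Nat.primeCounting n : ℝ) ≤ (1 / 72) * n) :
    ∃ n : ℕ, y ≤ 2 * n ∧ ∀ k : ℕ, 1 ≤ k → 2 ^ k < n → Squarefree (n - 2 ^ k) := by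
  classical
  set Q : ℕ := primorial y with hQ
  have hQ0 : 0 < Q := primorial_pos y
  have h2Q : 2 ∣ Q := (Nat.prime_two.dvd_primorial_iff).2 (by omega)
  obtain ⟨H, hH⟩ := h2Q
  have hHodd : ¬ 2 ∣ H := by
    intro h2
    have hsq := squarefree_primorial y
    obtain ⟨c, hc⟩ := h2
    have h3 : 2 * 2 ∣ primorial y := ⟨c, by rw [← hQ, hH, hc]; ring⟩
    have := hsq 2 h3
    rw [Nat.isUnit_iff] at this
    omega
  have hQ4 : Q ≤ 4 ^ y := primorial_le_four_pow y
  set M : ℕ := 64 ^ y / Q with hM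
  -- the bad values of `m`
  set B : ℕ → ℕ → Finset ℕ := fun k p => (range M).filter fun m : ℕ => ((p : ℤ) ^ 2 ∣ (Q : ℤ) * m + ((H : ℤ) - 2 ^ k)) with hB
  have hM16' : (16 : ℝ) ^ y ≤ M := by
    have h1 : 16 ^ y ≤ M := by
      rw [hM, Nat.le_div_iff_mul_le hQ0]
      calc 16 ^ y * Q ≤ 16 ^ y * 4 ^ y := Nat.mul_le_mul_left _ hQ4
        _ = 64 ^ y := by rw [← mul_pow]; norm_num
    have h2 : ((16 ^ y : ℕ) : ℝ) ≤ M := by exact_mod_cast h1
    push_cast at h2
    exact h2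
  set U : Finset ℕ := (Ico 1 (6 * y)).biUnion fun k => ((Ioc y (8 ^ y)).filter Nat.Prime).biUnion fun p => B k p with hU
  have hUcard : (U.card : ℝ) < M := by
    have h1 : U.card ≤ ∑ k ∈ Ico 1 (6 * y), ∑ p ∈ (Ioc y (8 ^ y)).filter Nat.Prime, (B k p).card := by
      refine card_biUnion_le.trans (sum_le_sum fun k _ => card_biUnion_le)
    have h2 : (U.card : ℝ) ≤ ∑ k ∈ Ico 1 (6 * y), ∑ p ∈ (Ioc y (8 ^ y)).filter Nat.Prime, ((B k p).card : ℝ) := by
      exact_mod_cast h1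
    have h3 : ∑ k ∈ Ico 1 (6 * y), ∑ p ∈ (Ioc y (8 ^ y)).filter Nat.Prime, ((B k p).card : ℝ) ≤
        ∑ k ∈ Ico 1 (6 * y), ∑ p ∈ (Ioc y (8 ^ y)).filter Nat.Prime, ((M : ℝ) / (p : ℝ) ^ 2 + 1) := by
      refine sum_le_sum fun k _ => sum_le_sum fun p hp => ?_
      rw [mem_filter, mem_Ioc] at hp
      refine count_le Q p M hp.2 ?_ _
      rw [hQ, hp.2.dvd_primorial_iff]
      omega
    have hy8 : y ≤ 8 ^ y := (Nat.lt_pow_self (by norm_num)).le
    have h4 : ∑ p ∈ (Ioc y (8 ^ y)).filter Nat.Prime, ((M : ℝ) / (p : ℝ) ^ 2 + 1) ≤ (M : ℝ) * (1 / (24 * (y : ℝ))) + (8 : ℝ) ^ y := by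
      rw [sum_add_distrib]
      have e1 : ∑ p ∈ (Ioc y (8 ^ y)).filter Nat.Prime, ((M : ℝ) / (p : ℝ) ^ 2) =
          M * ∑ p ∈ (Ioc y (8 ^ y)).filter Nat.Prime, (1 : ℝ) / (p : ℝ) ^ 2 := by
        rw [mul_sum]
        refine sum_congr rfl fun p _ => ?_
        ring
      have e2 := sum_primes (1 / 72) (by norm_num) y (by omega) hd (8 ^ y) hy8
      have hy0 : (0 : ℝ) < y := by exact_mod_cast (by omega : 0 < y)
      have hR0 : (0 : ℝ) < ((8 ^ y : ℕ) : ℝ) := by positivity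
      have e3 : (Nat.primeCounting (8 ^ y) : ℝ) / ((8 ^ y : ℕ) : ℝ) ^ 2 ≤ (1 / 72) / ((8 ^ y : ℕ) : ℝ) := by
        have := hd (8 ^ y) hy8
        rw [div_le_div_iff₀ (by positivity) hR0]
        nlinarith
      have e4 : (1 / 72 : ℝ) / ((8 ^ y : ℕ) : ℝ) ≤ (1 / 72) * (1 / (y : ℝ)) := by
        rw [div_eq_mul_one_div]
        apply mul_le_mul_of_nonneg_left _ (by norm_num)
        apply one_div_le_one_div_of_le hy0
        exact_mod_cast hy8
      have e5 : 0 ≤ 1 / ((8 ^ y : ℕ) : ℝ) := by positivity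
      have e6 : ∑ p ∈ (Ioc y (8 ^ y)).filter Nat.Prime, (1 : ℝ) / (p : ℝ) ^ 2 ≤ 1 / (24 * y) := by
        have e7 : (1 : ℝ) / (24 * y) = (1 / 24) * (1 / (y : ℝ)) := by
          field_simp
        rw [e7]
        linarith
      have e8 : ∑ _p ∈ (Ioc y (8 ^ y)).filter Nat.Prime, (1 : ℝ) ≤ 8 ^ y := by
        rw [sum_const, nsmul_eq_mul, mul_one]
        have : ((Ioc y (8 ^ y)).filter Nat.Prime).card ≤ 8 ^ y := by
          refine (card_filter_le _ _).trans ?_
          rw [Nat.card_Ioc]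
          omega
        exact_mod_cast this
      rw [e1]
      have hM0 : (0 : ℝ) ≤ M := Nat.cast_nonneg _
      have := mul_le_mul_of_nonneg_left e6 hM0
      linarith
    have h5 : ∑ k ∈ Ico 1 (6 * y), ∑ p ∈ (Ioc y (8 ^ y)).filter Nat.Prime, ((M : ℝ) / (p : ℝ) ^ 2 + 1) ≤
        (6 * (y : ℝ)) * ((M : ℝ) * (1 / (24 * (y : ℝ))) + (8 : ℝ) ^ y) := by
      have hy0 : (0 : ℝ) < y := by exact_mod_cast (by omega : 0 < y)
      refine (sum_le_sum fun k _ => h4).trans ?_
      rw [sum_const, nsmul_eq_mul, Nat.card_Ico]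
      apply mul_le_mul_of_nonneg_right
      · have : 6 * y - 1 ≤ 6 * y := Nat.sub_le _ _
        exact_mod_cast this
      · positivity
    have hy0 : (0 : ℝ) < y := by exact_mod_cast (by omega : 0 < y)
    have h6 : (6 * (y : ℝ)) * ((M : ℝ) * (1 / (24 * (y : ℝ))) + (8 : ℝ) ^ y) = M / 4 + 6 * y * 8 ^ y := by
      field_simp
      ring
    have h7 : (6 * y : ℝ) * 8 ^ y ≤ M / 2 := by
      have e1 : 12 * y ≤ 2 ^ y := twelve_mul_le y hy
      have e2 : (12 * y : ℝ) ≤ 2 ^ y := by exact_mod_cast e1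
      have e3 : (16 : ℝ) ^ y = 2 ^ y * 8 ^ y := by rw [← mul_pow]; norm_num
      have e4 : (0 : ℝ) < 8 ^ y := by positivity
      nlinarith
    have hMpos : (0 : ℝ) < M := lt_of_lt_of_le (by positivity) hM16'
    rw [h6] at h5
    linarith
  -- a good `m`
  obtain ⟨m, hm, hmU⟩ : ∃ m ∈ range M, m ∉ U := by
    by_contra hcon
    push Not at hcon
    have h1 : range M ⊆ U := fun m hm => hcon m hm
    have h2 := card_le_card h1
    rw [card_range] at h2
    have h3 : (M : ℝ) ≤ U.card := by exact_mod_cast h2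
    linarith
  have hmM : m < M := mem_range.1 hm
  set n : ℕ := Q * m + H with hn
  have hnlt : n < 64 ^ y := by
    have h1 : Q * (m + 1) ≤ 64 ^ y := by
      have h2 : m + 1 ≤ M := hmM
      calc Q * (m + 1) ≤ Q * M := Nat.mul_le_mul_left _ h2
        _ ≤ 64 ^ y := Nat.mul_div_le _ _
    have h3 : H < Q := by omega
    rw [hn]
    nlinarith
  have hyn : y ≤ 2 * n := by
    obtain ⟨p, hp, hp1, hp2⟩ := Nat.exists_prime_lt_and_le_two_mul (y / 2) (by omega)
    have h1 : p ∣ 2 * H := by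
      rw [← hH, hQ, hp.dvd_primorial_iff]
      omega
    have h2 : p ∣ H := by
      have hcop : Nat.Coprime p 2 := (Nat.coprime_primes hp Nat.prime_two).2 (by omega)
      exact hcop.dvd_of_dvd_mul_left h1
    have h3 := Nat.le_of_dvd (by omega) h2
    omega
  refine ⟨n, hyn, fun k hk hkn => ?_⟩
  have hk6 : k < 6 * y := by
    by_contra hcon
    push Not at hcon
    have h1 : 2 ^ (6 * y) ≤ 2 ^ k := Nat.pow_le_pow_right (by norm_num) hcon
    have h2 : 2 ^ (6 * y) = 64 ^ y := by rw [pow_mul]; norm_num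
    omega
  rw [Nat.squarefree_iff_prime_squarefree]
  intro p hp hdvd
  rcases Nat.lt_or_ge y p with hpy | hpy
  · -- large primes
    apply hmU
    rw [hU, mem_biUnion]
    refine ⟨k, mem_Ico.2 ⟨hk, hk6⟩, ?_⟩
    rw [mem_biUnion]
    refine ⟨p, ?_, ?_⟩
    · rw [mem_filter, mem_Ioc]
      refine ⟨⟨hpy, ?_⟩, hp⟩
      have h1 : p * p ≤ n - 2 ^ k := Nat.le_of_dvd (by omega) hdvd
      have h64 : (8 : ℕ) ^ y * 8 ^ y = 64 ^ y := by rw [← mul_pow]; norm_num
      by_contra hcon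
      push Not at hcon
      have h2 : 8 ^ y * 8 ^ y ≤ p * p := Nat.mul_le_mul hcon.le hcon.le
      have h3 : 0 < 2 ^ k := by positivity
      omega
    · rw [hB, mem_filter]
      refine ⟨hm, ?_⟩
      have h1 : ((p * p : ℕ) : ℤ) ∣ ((n - 2 ^ k : ℕ) : ℤ) := Int.natCast_dvd_natCast.2 hdvd
      rw [Nat.cast_sub hkn.le, hn] at h1
      push_cast at h1
      have e : (Q : ℤ) * m + H - 2 ^ k = (Q : ℤ) * m + ((H : ℤ) - 2 ^ k) := by ring
      rw [e, ← pow_two] at h1
      exact h1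
  · -- small primes
    have hpQ : p ∣ Q := (hp.dvd_primorial_iff).2 hpy
    have hpd : p ∣ n - 2 ^ k := (dvd_mul_right p p).trans hdvd
    rcases hp.eq_two_or_odd' with rfl | hodd
    · -- `p = 2`
      have h1 : 2 ∣ 2 ^ k := dvd_pow_self 2 (by omega)
      have h2 : 2 ∣ n := by
        have := (Nat.dvd_sub_iff_left hkn.le h1).1 hpd
        exact this
      rw [hn, Nat.dvd_add_right (Dvd.dvd.mul_right hpQ m)] at h2
      exact hHodd h2
    · have h1 : p ∣ H := by
        rw [hH] at hpQ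
        have hcop : Nat.Coprime p 2 := (Nat.coprime_primes hp Nat.prime_two).2 (by rintro rfl; exact absurd hodd (by decide))
        exact hcop.dvd_of_dvd_mul_left hpQ
      have h2 : p ∣ n := by
        rw [hn]
        exact dvd_add (Dvd.dvd.mul_right hpQ m) h1
      have h3 : p ∣ 2 ^ k := by
        have := (Nat.dvd_sub_iff_right hkn.le h2).1 hpd
        exact this
      have h4 := hp.dvd_of_dvd_pow h3
      rw [Nat.prime_dvd_prime_iff_eq hp Nat.prime_two] at h4
      subst h4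
      exact absurd hodd (by decide)

/-- There are infinitely many integers `n ≥ 3` such that `n - 2 ^ k` is squarefree for every `k ≥ 1` with
`2 ^ k < n`. -/
theorem result :
    {n : ℕ | 3 ≤ n ∧ ∀ k : ℕ, 1 ≤ k → 2 ^ k < n → Squarefree (n - 2 ^ k)}.Infinite := by
  rw [Set.infinite_iff_exists_gt]
  intro N
  obtain ⟨y₀, hy₀⟩ := density (1 / 72) (by norm_num)
  obtain ⟨n, hn, h⟩ := exists_good (y₀ + 2 * N + 12) (by omega) (fun n hn => hy₀ n (by omega))
  exact ⟨n, ⟨by omega, h⟩, by omega⟩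

end Pool.Agent.Results.MP_fcd74d_nt.InfinitelyManyGood
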